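import Pool.Agent.H.MP_93b8e4_co.Diag

set_option autoImplicit false

namespace Pool.Agent.Results.MP_93b8e4_co.Holds

open Finset Equiv

variable {N : ℕ}

/-- Coxeter length: the number of inversions -/
def len (u : Perm (Fin N)) : ℕ :=
  (univ.filter fun x : Fin N × Fin N => x.1 < x.2 ∧ u x.2 < u x.1).card

/-- Bruhat order: chains of left multiplications by transpositions that raise the length -/
def ble (u w : Perm (Fin N)) : Prop :=
  Relation.ReflTransGen (fun x y => ∃ t : Perm (Fin N), t.IsSwap ∧ y = t * x ∧ len x < len y) u w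

def blt (u w : Perm (Fin N)) : Prop := ble u w ∧ u ≠ w

/-- smoothness of the interval: the number of transpositions `t` with `t u ≤ w` is `len w` -/
def Smooth (u w : Perm (Fin N)) : Prop :=
  Set.ncard {t : Perm (Fin N) | t.IsSwap ∧ ble (t * u) w} = len w

/-- the simple reflection `(i, i+1)` -/
def s {n : ℕ} (i : Fin n) : Perm (Fin (n + 1)) := swap i.castSucc i.succ

open Pool.Agent.H.MP_93b8e4_co

lemma len_cast (u : Perm (Fin N)) : (len u : ℤ) = L u := by
  rw [len, card_filter, L, ← Fintype.sum_prod_type']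
  push_cast
  rfl

lemma step_up (u : Perm (Fin N)) {p q : Fin N} (h : p < q) (h' : u p < u q) :
    blt u (swap (u p) (u q) * u) := by
  have := L_swap u h h'
  rw [← len_cast, ← len_cast, Nat.cast_lt] at this
  exact ⟨Relation.ReflTransGen.single ⟨_, ⟨_, _, h'.ne, rfl⟩, rfl, this⟩,
    fun e => by rw [← e] at this; omega⟩

lemma step_down (u : Perm (Fin N)) {p q : Fin N} (h : p < q) (h' : u q < u p) :
    blt (swap (u p) (u q) * u) u := by
  have := step_up (swap (u p) (u q) * u) h (by simpa using h')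
  simpa [← mul_assoc, swap_comm (u q)] using this

lemma dd_of_ble {u w : Perm (Fin N)} (h : ble u w) : ∀ i j, 0 ≤ dd u w i j := by
  intro i j
  induction h with
  | refl => simp [dd]
  | @tail x y _ hb ih =>
    obtain ⟨_, ⟨a, b, hab, rfl⟩, rfl, h3⟩ := hb
    have key : ∀ p q : Fin N, p < q → len x < len (swap (x p) (x q) * x) →
        0 ≤ dd x (swap (x p) (x q) * x) i j := by
      intro p q hpq h4
      rcases lt_or_gt_of_ne (x.injective.ne hpq.ne) with h | h
      · rw [dd_swap x hpq h]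
        split_ifs <;> omega
      · have := L_swap (swap (x p) (x q) * x) hpq (by simpa using h)
        simp only [Perm.mul_apply, swap_apply_left, swap_apply_right, swap_comm (x q),
          ← mul_assoc, swap_mul_self, one_mul] at this
        rw [← len_cast, ← len_cast] at this
        omega
    have : 0 ≤ dd x (swap a b * x) i j := by
      rcases lt_or_gt_of_ne ((x⁻¹).injective.ne hab) with h | h
      · simpa using key _ _ h (by simpa using h3)
      · simpa [swap_comm b] using key _ _ h (by simpa [swap_comm b] using h3)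
    simp only [dd] at this ih ⊢
    omega

lemma dd_G {u w : Perm (Fin N)} (h0 : ∀ i j, 0 ≤ dd u w i j) {p q : Fin N}
    (h : G (dd u w) (u p) p (u q) q) (i j : ℕ) : 0 ≤ dd (swap (u p) (u q) * u) w i j := by
  have a := dd_swap u h.2.1 h.1 i j
  have b := h0 i j
  have c := h.2.2 i j
  simp only [dd] at a b c ⊢
  split_ifs at a <;> omega

lemma ble_of_dd {u w : Perm (Fin N)} (h0 : ∀ i j, 0 ≤ dd u w i j) : ble u w := by
  induction h : (L w - L u).toNat using Nat.strong_induction_on generalizing u with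
  | _ k ih =>
  by_cases e : u = w
  · exact e ▸ Relation.ReflTransGen.refl
  obtain ⟨p, q, hG⟩ := exists_G h0 e
  refine (step_up u hG.2.1 hG.1).1.trans (ih _ ?_ (dd_G h0 hG) rfl)
  have a := L_swap u hG.2.1 hG.1
  have b : 0 ≤ L w - L (swap (u p) (u q) * u) := by
    rw [len_formula]
    exact add_nonneg (sum_nonneg fun _ _ => dd_G h0 hG _ _) (sum_nonneg fun _ _ => dd_G h0 hG _ _)
  omega

open Classical in
lemma smooth_count {u w : Perm (Fin N)} (h : ble u w) (hs : Smooth u w) :
    ∑ p : Fin N, ∑ q : Fin N, (if G (dd u w) (u p) p (u q) q then (1 : ℤ) else 0) ≤ L w - L u := by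
  set A := univ.filter fun x : Fin N × Fin N => x.1 < x.2 ∧ u x.2 < u x.1 with hA
  set B := univ.filter fun x : Fin N × Fin N => G (dd u w) (u x.1) x.1 (u x.2) x.2 with hB
  have h1 : (A ∪ B).card ≤ len w := by
    rw [← hs, ← Set.ncard_coe_finset]
    refine Set.ncard_le_ncard_of_injOn (fun x => swap (u x.1) (u x.2)) ?_ ?_
    · intro x hx
      rcases mem_union.1 hx with hx | hx
      · have := (mem_filter.1 hx).2
        exact ⟨⟨_, _, this.2.ne', rfl⟩, (step_down u this.1 this.2).1.trans h⟩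
      · have := (mem_filter.1 hx).2
        exact ⟨⟨_, _, Fin.ne_of_lt this.1, rfl⟩, ble_of_dd (dd_G (dd_of_ble h) this)⟩
    · have lt : ∀ x ∈ A ∪ B, x.1 < x.2 := fun x hx => (mem_union.1 hx).elim
        (fun hx => (mem_filter.1 hx).2.1) fun hx => (mem_filter.1 hx).2.2.1
      rintro ⟨p, q⟩ hx ⟨p', q'⟩ hy e
      have a : p < q := lt _ hx
      have b : p' < q' := lt _ hy
      have c : swap p q = swap p' q' := by
        ext z
        have := congrArg (fun f : Perm (Fin N) => f (u z)) e
        simp only [← u.injective.map_swap] at this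
        rw [u.injective this]
      have c1 := congrArg (fun f : Perm (Fin N) => f p) c
      have c2 := congrArg (fun f : Perm (Fin N) => f q) c
      simp only [swap_apply_left, swap_apply_right, swap_apply_def] at c1 c2
      simp only [Prod.mk.injEq]
      split_ifs at c1 c2 <;> omega
  rw [card_union_of_disjoint (disjoint_left.2 fun x hx hy =>
    lt_asymm (mem_filter.1 hx).2.2 (mem_filter.1 hy).2.1)] at h1
  have h2 : (B.card : ℤ) =
      ∑ p : Fin N, ∑ q : Fin N, (if G (dd u w) (u p) p (u q) q then (1 : ℤ) else 0) := by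
    rw [hB, card_filter, ← Fintype.sum_prod_type']
    push_cast
    rfl
  rw [← h2, ← len_cast, ← len_cast]
  have : len u = A.card := rfl
  omega

theorem result (n : ℕ) (_hn : 1 ≤ n) (u w : Perm (Fin (n + 1))) (h : blt u w) (hs : Smooth u w) :
    ∃ i : Fin n, blt u (s i * u) ∧ (¬ ble (s i * u) w ∨ blt (s i * w) w) := by
  classical
  by_contra hc
  push Not at hc
  have h0 := dd_of_ble h.1
  have ai : ∀ (v : Perm (Fin (n + 1))) x, v (v⁻¹ x) = x := fun v x => by simp
  obtain ⟨β, b1, b2, b3⟩ := count u w h0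
  have b4 := smooth_count h.1 hs
  have n1 := sum_nonneg fun p (_ : p ∈ univ) => b1 p
  have n2 : ∀ q ∈ (univ : Finset (Fin (n + 1))), 0 ≤ ∑ p : Fin (n + 1),
      (if G (dd u w) (w p) p (w q) q then (1 : ℤ) else 0) :=
    fun _ _ => sum_nonneg fun _ _ => by split_ifs <;> omega
  have n3 := sum_nonneg n2
  have S2 : ∀ p, β p = 0 := fun p =>
    (sum_eq_zero_iff_of_nonneg fun p _ => b1 p).1 (by omega) p (mem_univ _)
  have S1 : ∀ p q : Fin (n + 1), ¬ G (dd u w) (w p) p (w q) q := by
    intro p q hG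
    have := (sum_eq_zero_iff_of_nonneg n2).1 (by omega) q (mem_univ _)
    have := (sum_eq_zero_iff_of_nonneg fun _ _ => by split_ifs <;> omega).1 this p (mem_univ _)
    rw [if_pos hG] at this
    omega
  have row : ∀ (i : Fin (n + 1)) j, dd u w (i + 1) j = dd u w i j +
      (if (u⁻¹ i : ℕ) < j then 1 else 0) - if (w⁻¹ i : ℕ) < j then 1 else 0 := by
    intro i j
    simp only [dd, r_row]
    ring
  have drop : ∀ c m k, k ≤ m → 0 < dd u w k c → dd u w m c = 0 →
      ∃ k', k ≤ k' ∧ k' < m ∧ 0 < dd u w k' c ∧ dd u w (k' + 1) c = 0 := by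
    intro c m
    induction m with
    | zero => intro k a b e; rw [Nat.le_zero.1 a] at b; omega
    | succ m ih =>
      intro k a b e
      have a' : k ≤ m := by
        by_contra hh
        rw [show k = m + 1 by omega] at b
        omega
      rcases (h0 m c).eq_or_lt with e' | e'
      · obtain ⟨k', x, y, z⟩ := ih k a' b e'.symm
        exact ⟨k', x, by omega, z⟩
      · exact ⟨m, a', by omega, e', e⟩
  have ex : ∃ k, k < n + 1 ∧ ∃ c, c ≤ n + 1 ∧ 0 < dd u w k c ∧ dd u w (k + 1) c = 0 := by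
    obtain ⟨p, q, hG⟩ := exists_G h0 h.2
    obtain ⟨k, -, x, y⟩ := drop q (n + 1) (u q) (u q).2.le
      (hG.2.2 _ _ hG.1 le_rfl hG.2.1 le_rfl) (dd_N1 u w _)
    exact ⟨k, x, q, q.2.le, y⟩
  obtain ⟨hk, hex⟩ := Nat.find_spec ex
  have kmin : ∀ k' c, c ≤ n + 1 → k' < Nat.find ex → 0 < dd u w k' c → dd u w (k' + 1) c ≠ 0 :=
    fun k' c a b x y => Nat.find_min ex b ⟨by omega, c, a, x, y⟩
  set k := Nat.find ex
  obtain ⟨c, hcm, cmax⟩ := exists_max_image ((range (n + 2)).filter fun c =>
    0 < dd u w k c ∧ dd u w (k + 1) c = 0) id (by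
      obtain ⟨c, x, y⟩ := hex
      exact ⟨c, mem_filter.2 ⟨mem_range.2 (by omega), y⟩⟩)
  simp only [mem_filter, mem_range, id] at hcm cmax
  obtain ⟨c1, c2, c3⟩ := hcm
  have c4 : c ≤ u⁻¹ ⟨k, hk⟩ := by
    have := row ⟨k, hk⟩ c
    simp only at this
    split_ifs at this <;> omega
  obtain ⟨a, ha, amax⟩ := exists_max_image (univ.filter fun a : Fin (n + 1) =>
    (a : ℕ) < k ∧ (u⁻¹ a : ℕ) < c) id (by
      by_contra hh
      rw [not_nonempty_iff_eq_empty, filter_eq_empty_iff] at hh
      have e1 : r u k c = 0 := sum_eq_zero fun p _ => if_neg fun x =>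
        hh (mem_univ (u p)) ⟨x.2, by simpa using x.1⟩
      have e2 : 0 ≤ r w k c := sum_nonneg fun _ _ => by split_ifs <;> omega
      simp only [dd] at c2
      omega)
  simp only [mem_filter, mem_univ, true_and, id] at ha amax
  obtain ⟨i, rfl⟩ : ∃ i : Fin n, a = i.castSucc := ⟨⟨a, by omega⟩, rfl⟩
  have a1 : c ≤ u⁻¹ i.succ := by
    by_contra hh
    by_cases e : (i.succ : ℕ) < k
    · exact absurd (amax _ ⟨e, by omega⟩) (by simp)
    · have : i.succ = ⟨k, hk⟩ := Fin.ext (by simp at e ha ⊢; omega)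
      rw [this] at hh
      omega
  have a2 : u⁻¹ i.castSucc < u⁻¹ i.succ := by rw [Fin.lt_def]; omega
  have up := step_up u a2 (by simp)
  have sw := dd_swap u a2 (by simp)
  simp only [ai] at up sw
  obtain ⟨H1, H2⟩ := hc i up
  have strip : ∀ j, (u⁻¹ i.castSucc : ℕ) < j → j ≤ u⁻¹ i.succ → 0 < dd u w (i + 1) j := by
    intro j x y
    have e1 := sw (i + 1) j
    have e2 := dd_of_ble H1 (i + 1) j
    rw [if_pos ⟨by simp, by simp, x, y⟩] at e1
    simp only [dd, s] at e1 e2 ⊢
    omega
  have a3 : w⁻¹ i.castSucc < w⁻¹ i.succ := by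
    rcases lt_or_gt_of_ne ((w⁻¹).injective.ne (Fin.castSucc_lt_succ (i := i)).ne) with e | e
    · exact e
    · have := step_down w e (by simp)
      simp only [ai] at this
      rw [swap_comm] at this
      exact absurd this H2
  have a4 : ∃ j, (u⁻¹ i.castSucc : ℕ) < j ∧ dd u w (i + 1) j = 0 ∧ j ≤ w⁻¹ i.succ := by
    have := S1 (w⁻¹ i.castSucc) (w⁻¹ i.succ)
    simp only [ai, G, Fin.val_castSucc, Fin.val_succ] at this
    push Not at this
    obtain ⟨i', j, x1, x2, x3, x4, x5⟩ := this (by omega) a3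
    obtain rfl : i' = i + 1 := by omega
    have z : dd u w (i + 1) j = 0 := le_antisymm x5 (h0 _ _)
    refine ⟨j, ?_, z, x4⟩
    by_contra hh
    have e := row i.castSucc j
    simp only [Fin.val_castSucc] at e ha
    rw [if_neg hh, if_pos x3] at e
    exact kmin i j (by have := (w⁻¹ i.succ).2; omega) ha.1 (by omega) z
  obtain ⟨j1, j2, j3⟩ := Nat.find_spec a4
  have jmin : ∀ j, (u⁻¹ i.castSucc : ℕ) < j → j < Nat.find a4 → 0 < dd u w (i + 1) j :=
    fun j x y => lt_of_le_of_ne (h0 _ _) fun z => Nat.find_min a4 y ⟨x, z.symm, by omega⟩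
  set j := Nat.find a4
  have j4 : (u⁻¹ i.succ : ℕ) < j := by
    by_contra hh
    have := strip j j1 (by omega)
    omega
  have j5 : 0 < dd u w (i + 1 + 1) j := by
    have e := row i.succ j
    simp only [Fin.val_succ] at e
    rw [if_pos j4, if_neg (by omega)] at e
    omega
  have ex2 : ∃ b, (i : ℕ) < b ∧ ∃ c', (u⁻¹ i.castSucc : ℕ) < c' ∧ c' < j ∧ dd u w (b + 1) c' = 0 := by
    refine ⟨k, ha.1, c, ha.2, by omega, c3⟩
  obtain ⟨e1, c', e2, e3, e4⟩ := Nat.find_spec ex2
  have e5 : Nat.find ex2 ≤ k := Nat.find_min' ex2 ⟨ha.1, c, ha.2, by omega, c3⟩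
  have e6 := b3 (u⁻¹ i.castSucc) (Nat.find ex2) j c' (by simpa using e1) (by omega) e2 e3 (by
    refine ⟨by simpa using e1, by omega, fun i' j' x1 x2 x3 x4 => ?_⟩
    simp only [ai, Fin.val_castSucc] at x1
    by_cases e : i' = i + 1
    · exact e ▸ jmin j' x3 (by omega)
    · refine lt_of_le_of_ne (h0 _ _) fun z => Nat.find_min ex2 (m := i' - 1) (by omega)
        ⟨by omega, j', x3, by omega, ?_⟩
      rw [show i' - 1 + 1 = i' by omega, z]) (by simpa using j2) e4
  rw [S2] at e6
  obtain ⟨k', x1, x2, x3, x4⟩ := drop j (Nat.find ex2 + 1) (i + 1 + 1) (by omega) j5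
    (le_antisymm e6 (h0 _ _))
  have j6 : j ≤ n + 1 := by have := (w⁻¹ i.succ).2; omega
  by_cases e : k' = k
  · have := cmax j ⟨by omega, e ▸ x3, e ▸ x4⟩
    omega
  · exact kmin k' j j6 (by omega) x3 x4

end Pool.Agent.Results.MP_93b8e4_co.Holds
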